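import Pool.Agent.KS6_3.ZL.H387R3.ZT.Stmts
import Pool.Agent.KS6_3.ZL.H525R3.FFp.Riemann

set_option autoImplicit false

/-! Project ZT (helper387): finite supports, infinitely many places, degree of principal divisors. -/

namespace Pool.Agent.H22R3.ZT

open Pool.Agent Pool.Agent.H525R3.FFp FF

theorem ddeg_neg_of {k K : Type} [Field k] [Field K] [Algebra k K] [PerfectField k] [IsFF k K]
    {D : Place k K →₀ ℤ} (Q : Place k K) (h : ∀ P, P ≠ Q → D P = 0) (hQ : D Q < 0) :
    H525R3.FFp.ddeg D < 0 := by
  classical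
  have h1 : D = Finsupp.single Q (D Q) := by
    ext P
    by_cases hP : P = Q
    · subst hP; simp
    · rw [h P hP, Finsupp.single_apply, if_neg (fun e => hP e.symm)]
  have h3 : H525R3.FFp.ddeg D = D Q * Q.deg := by
    conv_lhs => rw [h1]
    rw [ddeg_single]
  rw [h3]
  have h2 : (0 : ℤ) < Q.deg := by exact_mod_cast deg_pos Q
  nlinarith

theorem infinite_places {k K : Type} [Field k] [Field K] [Algebra k K] [PerfectField k]
    [IsFF k K] : Infinite (Place k K) := by
  classical
  by_contra hc
  rw [not_infinite_iff_finite] at hc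
  have := Fintype.ofFinite (Place k K)
  obtain ⟨x, hx⟩ := exists_D_ne k K
  obtain ⟨S, hS, hS2⟩ := poles (k := k) (f := x) hx
  have hfin := IsFF.finite (sep_of_D_ne hx).1
  have h1 : 0 < Module.finrank (IntermediateField.adjoin k {x}) K := Module.finrank_pos
  have hSne : S.Nonempty := by
    by_contra h
    rw [Finset.not_nonempty_iff_eq_empty] at h
    rw [h] at hS2
    simp at hS2
    omega
  obtain ⟨Q, hQ⟩ := hSne
  have hxQ : Q.ord x < 0 := (hS Q).1 hQ
  -- another place
  obtain ⟨P', hP'⟩ : ∃ P' : Place k K, P' ≠ Q ∧ 0 < P'.ord x := by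
    by_contra hcon
    push Not at hcon
    have h2 : H525R3.FFp.ddeg (divisor k x) ≤ H525R3.FFp.ddeg (Finsupp.single Q (Q.ord x)) := by
      apply ddeg_mono
      intro P
      rw [divisor_apply, Finsupp.single_apply]
      split_ifs with h
      · subst h; rfl
      · exact hcon P (fun e => h e.symm)
    rw [ddeg_divisor, ddeg_single] at h2
    have h3 : (0 : ℤ) < Q.deg := by exact_mod_cast deg_pos Q
    nlinarith
  obtain ⟨γ, N, hγ, -⟩ := riemann k K
  let E : Place k K →₀ ℤ := Finsupp.equivFunOnFinite.symm (fun _ => 1)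
  have hE : ∀ P, E P = 1 := fun P => rfl
  let n : ℤ := max (γ + H525R3.FFp.ddeg E + 1) 0
  let D : Place k K →₀ ℤ := Finsupp.single Q n - E
  have hD : γ < H525R3.FFp.ddeg D := by
    show γ < H525R3.FFp.ddeg (Finsupp.single Q n - E)
    rw [ddeg_sub, ddeg_single]
    have h3 : (1 : ℤ) ≤ Q.deg := by exact_mod_cast deg_pos Q
    have h4 : γ + H525R3.FFp.ddeg E + 1 ≤ n := le_max_left _ _
    have h5 : (0 : ℤ) ≤ n := le_max_right _ _
    nlinarith
  have hell : 0 < ell D := by
    have := hγ D
    omega
  obtain ⟨f, hf, hf0⟩ := exists_ne_zero_of_ell_pos hell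
  rw [mem_LL] at hf
  have hf' : ∀ P : Place k K, - D P ≤ P.ord f := hf.resolve_left hf0
  have hfP : ∀ P : Place k K, P ≠ Q → 0 < P.ord f := by
    intro P hP
    have h3 := hf' P
    have h4 : D P = -1 := by
      show (Finsupp.single Q n - E) P = -1
      rw [Finsupp.sub_apply, Finsupp.single_apply, if_neg (fun e => hP e.symm), hE]
      rfl
    omega
  have hfQ : Q.ord f < 0 := by
    by_contra hcon
    push Not at hcon
    have h3 : H525R3.FFp.ddeg (Finsupp.single P' 1) ≤ H525R3.FFp.ddeg (divisor k f) := by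
      apply ddeg_mono
      intro P
      rw [divisor_apply, Finsupp.single_apply]
      split_ifs with h
      · subst h
        exact hfP _ hP'.1
      · by_cases hP : P = Q
        · subst hP; exact hcon
        · exact (hfP P hP).le
    rw [ddeg_divisor, ddeg_single] at h3
    have h4 : (0 : ℤ) < P'.deg := by exact_mod_cast deg_pos P'
    linarith
  have h1f : (1 : K) + f ≠ 0 := by
    intro h
    have : f = -1 := by linear_combination h
    rw [this, Q.ord_neg_one] at hfQ
    exact lt_irrefl _ hfQ
  have hlt : H525R3.FFp.ddeg (divisor k (1 + f)) < 0 := by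
    apply ddeg_neg_of Q
    · intro P hP
      rw [divisor_apply, (P.ord_add_eq one_ne_zero hf0 (by rw [P.ord_one]; exact hfP P hP)).2, P.ord_one]
    · rw [divisor_apply, add_comm, (Q.ord_add_eq hf0 one_ne_zero (by rw [Q.ord_one]; exact hfQ)).2]
      exact hfQ
  rw [ddeg_divisor] at hlt
  exact lt_irrefl _ hlt

theorem taskSupp : H387R3.ZT.TaskSupp := by
  intro k F _ _ _ _ _
  exact ⟨fun f => H525R3.FFp.finite_support f, infinite_places⟩

theorem taskDeg0 : H387R3.ZT.TaskDeg0 := by
  intro k F _ _ _ _ _ f hf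
  have h1 := ddeg_divisor (k := k) f
  rw [← h1]
  unfold H525R3.FFp.ddeg
  rw [Finsupp.sum, finsum_eq_sum_of_support_subset]
  · rfl
  · intro P hP
    rw [Finset.mem_coe, Finsupp.mem_support_iff, divisor_apply]
    intro h0
    apply hP
    simp [h0]

end Pool.Agent.H22R3.ZT
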